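import Pool.Agent.TH468.BE.Fol

/-! Solvable groups of bounded derived length belong to the class `Tower`. -/

set_option autoImplicit false

open scoped Pointwise

namespace Pool.Agent.TH468.BE

theorem map_derivedSeries_commutator (A : Type) [Group A] (l : ℕ) :
    (derivedSeries (commutator A) l).map (commutator A).subtype ≤ derivedSeries A (l + 1) := by
  induction l with
  | zero =>
    rintro x ⟨y, -, rfl⟩
    have : derivedSeries A (0 + 1) = commutator A := by
      rw [derivedSeries_succ, derivedSeries_zero]
      rfl
    rw [this]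
    exact y.2
  | succ l ih =>
    rw [derivedSeries_succ, derivedSeries_succ A (l + 1), Subgroup.map_commutator]
    exact Subgroup.commutator_mono ih ih

/-- A solvable group of derived length at most `l` is in the class `Tower φ l`. -/
theorem tower_of_derivedSeries (φ : ℕ → ℕ → ℕ) (l : ℕ) (A : Type) [Group A]
    (h : derivedSeries A l = ⊥) : Tower φ l A := by
  induction l generalizing A with
  | zero =>
    apply Tower.comm
    intro a b
    rw [derivedSeries_zero] at h
    have h1 : ∀ x : A, x = 1 := fun x => Subgroup.mem_bot.mp (h ▸ Subgroup.mem_top x)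
    rw [h1 a, h1 b]
  | succ l ih =>
    apply Tower.ext l A (commutator A)
    · apply ih
      rw [eq_bot_iff]
      intro x hx
      have h2 : (x : A) ∈ derivedSeries A (l + 1) :=
        map_derivedSeries_commutator A l ⟨x, hx, rfl⟩
      rw [h, Subgroup.mem_bot] at h2
      rw [Subgroup.mem_bot]
      exact Subtype.ext h2
    · apply Tower.comm
      intro a b
      have h1 : ∀ x y : Abelianization A, x * y = y * x := fun x y => mul_comm x y
      exact h1 a b

/-- A group in which every `k` elements generate a subgroup of at most `β k` elements is in the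
class `Tower φ l` as soon as `φ k t ≥ β k`. -/
theorem tower_of_locally_finite (φ : ℕ → ℕ → ℕ) (β : ℕ → ℕ) (hβ : ∀ k t, β k ≤ φ k t) (l : ℕ)
    (A : Type) [Group A]
    (h : ∀ G : Finset A, Finite (Subgroup.closure (G : Set A)) ∧
      Nat.card (Subgroup.closure (G : Set A)) ≤ β G.card) (hm : Monotone β) : Tower φ l A := by
  classical
  apply Tower.folner
  rw [folner_iff]
  intro k t G hG
  obtain ⟨hfin, hc⟩ := h G
  have hfin' : (Subgroup.closure (G : Set A) : Set A).Finite := hfin
  refine ⟨hfin'.toFinset, ?_, ?_, ?_⟩
  · exact ⟨1, hfin'.mem_toFinset.mpr (Subgroup.one_mem _)⟩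
  · refine le_trans (le_of_eq ?_) (hc.trans ((hm hG).trans (hβ k t)))
    rw [← Set.ncard_eq_toFinset_card _ hfin']
    rfl
  · have hsub : hfin'.toFinset * G ⊆ hfin'.toFinset := by
      intro x hx
      rw [Finset.mem_mul] at hx
      obtain ⟨y, hy, z, hz, rfl⟩ := hx
      rw [hfin'.mem_toFinset] at hy ⊢
      exact Subgroup.mul_mem _ hy (Subgroup.subset_closure hz)
    calc _ ≤ t * hfin'.toFinset.card := Nat.mul_le_mul_left _ (Finset.card_le_card hsub)
      _ ≤ _ := Nat.mul_le_mul_right _ (Nat.le_succ t)

end Pool.Agent.TH468.BE
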