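import Pool.Agent.TH468.BE.Lift
import Pool.Agent.H268R3.BE.Cyc

/-! The degree bound at a vertex with trivial stabiliser. -/

set_option autoImplicit false

open Finset
open scoped Pointwise

namespace Pool.Agent.TH468.BE

open Pool.Agent.H268R3.BE (tr card_tr tr_injective tr_tr tr_mono mem_tr dense_spot)

variable {V Ω A : Type} [DecidableEq V] [Fintype Ω] [Group A] [DecidableEq A] [MulAction A V]

theorem degree_bound (H : Finset (Finset V)) (b : V) (hfree : ∀ a : A, a • b = b → a = 1)
    (hH : ∀ (a : A), ∀ e ∈ H, tr a e ∈ H) (small : V → Prop) {L : ℕ}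
    (hL : ∀ x, small x → ∀ T : Finset A, (T.image (fun a => a • x)).card ≤ L) (mk : V → Ω)
    (hmk : ∀ x y, ¬ small x → ¬ small y → mk x = mk y → ∃ a : A, a • x = y)
    (hmk' : ∀ a : A, mk (a • b) = mk b)
    {s : ℕ} (hs : 3 ≤ s) (hcard : ∀ e ∈ H, e.card = s) {R d : ℕ} (hR : 1 ≤ R)
    (hd : Fintype.card Ω < d ^ R) {N K : ℕ}
    (hgrow : ∀ G : Finset A, G.card ≤ 12 * (R * R) + 6 * s + 4 →
      ∃ F : Finset A, 6 * s * (4 * (R * R) + 2 * s + 1) * L < F.card ∧ F.card ≤ N ∧
        (12 * (R * R) + 6 * s + 4) * (F * G).card < (12 * (R * R) + 6 * s + 4 + 1) * F.card)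
    (hK : N * (4 * (R * R) + 2 * s + 1) ≤ K)
    (hno : ∀ E ⊆ H, E.Nonempty → E.card ≤ K → (s - 2) * E.card ≤ (E.biUnion id).card) :
    #{e ∈ H | b ∈ e} ≤ (2 * R + 1 + 2 * s) * (Fintype.card Ω * d) := by
  classical
  have hd0 : 1 ≤ d := by
    rcases Nat.eq_zero_or_pos d with h | h
    · subst h
      rw [zero_pow (by omega)] at hd
      omega
    · exact h
  have hΩ : 0 < Fintype.card Ω := Fintype.card_pos_iff.mpr ⟨mk b⟩
  set I := H.filter (fun e => b ∈ e) with hI
  have hIH : ∀ e ∈ I, e ∈ H ∧ b ∈ e := fun e he => mem_filter.mp he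
  have hex : ∀ e : Finset V, ∃ x y : V, e ∈ I → x ∈ e ∧ y ∈ e ∧ x ≠ b ∧ y ≠ b ∧ x ≠ y ∧
      ∀ z ∈ e, z ≠ b → mk z = mk b → mk x = mk b := by
    intro e
    by_cases he : e ∈ I
    · have hc := hcard e (hIH e he).1
      have h1 : (e.erase b).card = s - 1 := by rw [card_erase_of_mem (hIH e he).2, hc]
      by_cases hz : ∃ z ∈ e, z ≠ b ∧ mk z = mk b
      · obtain ⟨z, hz, hzb, hzm⟩ := hz
        have h2 : ((e.erase b).erase z).card = s - 1 - 1 := by
          rw [card_erase_of_mem (mem_erase.mpr ⟨hzb, hz⟩), h1]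
        obtain ⟨y, hy⟩ := card_pos.mp (show 0 < ((e.erase b).erase z).card by omega)
        rw [mem_erase, mem_erase] at hy
        exact ⟨z, y, fun _ => ⟨hz, hy.2.2, hzb, hy.2.1, hy.1.symm, fun _ _ _ _ => hzm⟩⟩
      · obtain ⟨x, hx⟩ := card_pos.mp (show 0 < (e.erase b).card by omega)
        have h2 : ((e.erase b).erase x).card = s - 1 - 1 := by
          rw [card_erase_of_mem hx, h1]
        obtain ⟨y, hy⟩ := card_pos.mp (show 0 < ((e.erase b).erase x).card by omega)
        rw [mem_erase, mem_erase] at hy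
        rw [mem_erase] at hx
        push Not at hz
        exact ⟨x, y, fun _ => ⟨hx.2, hy.2.2, hx.1, hy.2.1, hy.1.symm,
          fun z hz1 hz2 hz3 => absurd hz3 (hz z hz1 hz2)⟩⟩
    · exact ⟨b, b, fun h => absurd h he⟩
  choose x y hxy using hex
  let f : Finset V → Finset V := fun e => {b, x e, y e}
  have hf : ∀ p ∈ I, f p ⊆ p ∧ (f p).card = 3 := by
    intro p hp
    obtain ⟨h1, h2, h3, h4, h5, -⟩ := hxy p hp
    constructor
    · intro z hz
      simp only [f, mem_insert, mem_singleton] at hz
      rcases hz with rfl | rfl | rfl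
      · exact (hIH p hp).2
      · exact h1
      · exact h2
    · exact card_eq_three.mpr ⟨b, x p, y p, h3.symm, h4.symm, h5, rfl⟩
  let good : Finset V → Prop := fun e => mk (x e) ≠ mk b ∧ mk (y e) ≠ mk b ∧ mk (x e) ≠ mk (y e)
  have hsplit := card_filter_add_card_filter_not (s := I) good
  -- the edges whose triple lies in two orbits
  have h2 : #{e ∈ I | ¬ good e} ≤ 2 * s * Fintype.card Ω := by
    let w : Finset V → Ω := fun e => if mk (x e) = mk b then mk (y e) else mk (x e)
    refine card_le_mul_card_image_of_maps_to (f := w) (t := univ) (fun _ _ => mem_univ _) (2 * s) ?_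
    intro ω _
    by_contra hcon
    push Not at hcon
    obtain ⟨P, hP, hPc⟩ := exists_subset_card_eq (show 2 * s + 1 ≤ _ from hcon)
    have hP' : ∀ p ∈ P, p ∈ I ∧ ¬ good p ∧ w p = ω := by
      intro p hp
      have := hP hp
      rw [mem_filter, mem_filter] at this
      exact ⟨this.1.1, this.1.2, this.2⟩
    obtain ⟨E, hE1, hE2, hE3, hE4⟩ := lift H hH small hL mk hmk hs b hfree P
      (fun p hp => (hIH p (hP' p hp).1).1) f (fun p hp => hf p (hP' p hp).1)
      (fun p hp => (hIH p (hP' p hp).1).2) (fun p hp => hcard p (hIH p (hP' p hp).1).1)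
      (c := s) (t := 2) (r := 12 * (R * R) + 6 * s + 4)
      (fun p hp => ⟨p, (hcard p (hIH p (hP' p hp).1).1).le, fun z hz _ => hz⟩)
      (by
        intro Θ hΘ
        have hsub : Θ ⊆ {mk b, ω} := by
          intro o ho
          obtain ⟨z, hz, -, rfl⟩ := hΘ o ho
          rw [mem_biUnion] at hz
          obtain ⟨p, hp, hz⟩ := hz
          obtain ⟨-, h2, h3⟩ := hP' p hp
          simp only [f, mem_insert, mem_singleton] at hz
          simp only [good, not_and_or, not_not] at h2
          simp only [w] at h3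
          rw [mem_insert, mem_singleton]
          split_ifs at h3 with h4
          · rcases hz with rfl | rfl | rfl
            · exact Or.inl rfl
            · exact Or.inl h4
            · exact Or.inr h3
          · rcases hz with rfl | rfl | rfl
            · exact Or.inl rfl
            · exact Or.inr h3
            · rcases h2 with h2 | h2 | h2
              · exact absurd h2 h4
              · exact Or.inl h2
              · exact Or.inr (h2 ▸ h3)
        exact (card_le_card hsub).trans card_le_two)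
      (by rw [hPc]; omega) (by omega) (by rw [hPc]; omega)
      (fun G hG => by
        obtain ⟨F, h1, h2, h3⟩ := hgrow G hG
        refine ⟨F, lt_of_le_of_lt ?_ h1, h2, h3⟩
        refine Nat.mul_le_mul_right _ (Nat.mul_le_mul_left _ ?_)
        rw [hPc]; omega)
    have h5 : E.card ≤ K := by
      refine hE3.trans (le_trans ?_ hK)
      refine Nat.mul_le_mul_left _ ?_
      rw [hPc]; omega
    have := hno E hE1 hE2 h5
    omega
  have h1 : #{e ∈ I | good e} ≤ (2 * R + 1) * (Fintype.card Ω * d) := by
    by_contra hcon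
    push Not at hcon
    let τ : Finset V → Finset Ω := fun e => {mk (x e), mk (y e)}
    obtain ⟨P, hP, hPc, hPb⟩ := dense_spot τ (I.filter good)
      (fun e he => by
        have := (mem_filter.mp he).2.2.2
        exact card_pair this) hR hd hcon.le hΩ
    have hP' : ∀ p ∈ P, p ∈ I ∧ good p := fun p hp => mem_filter.mp (hP hp)
    have hPc' : P.card ≤ 4 * (R * R) := by
      refine hPc.trans (le_of_eq (by ring))
    obtain ⟨E, hE1, hE2, hE3, hE4⟩ := lift H hH small hL mk hmk hs b hfree P
      (fun p hp => (hIH p (hP' p hp).1).1) f (fun p hp => hf p (hP' p hp).1)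
      (fun p hp => (hIH p (hP' p hp).1).2) (fun p hp => hcard p (hIH p (hP' p hp).1).1)
      (c := 1) (t := (P.biUnion τ).card + 1) (r := 12 * (R * R) + 6 * s + 4)
      (fun p hp => ⟨{b}, by simp, fun z hz ha => by
        obtain ⟨a, rfl⟩ := ha
        rw [mem_singleton]
        by_contra hne
        have h5 := (hxy p (hP' p hp).1).2.2.2.2.2 _ hz hne (hmk' a)
        exact (hP' p hp).2.1 h5⟩)
      (by
        intro Θ hΘ
        have hsub : Θ ⊆ insert (mk b) (P.biUnion τ) := by
          intro o ho
          obtain ⟨z, hz, -, rfl⟩ := hΘ o ho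
          rw [mem_biUnion] at hz
          obtain ⟨p, hp, hz⟩ := hz
          simp only [f, mem_insert, mem_singleton] at hz
          rw [mem_insert, mem_biUnion]
          rcases hz with rfl | rfl | rfl
          · exact Or.inl rfl
          · exact Or.inr ⟨p, hp, by simp [τ]⟩
          · exact Or.inr ⟨p, hp, by simp [τ]⟩
        exact (card_le_card hsub).trans (card_insert_le _ _))
      (by omega) (by omega) (by omega)
      (fun G hG => by
        obtain ⟨F, h1, h2, h3⟩ := hgrow G hG
        refine ⟨F, lt_of_le_of_lt ?_ h1, h2, h3⟩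
        refine Nat.mul_le_mul_right _ (Nat.mul_le_mul (by omega) ?_)
        omega)
    have h5 : E.card ≤ K := by
      refine hE3.trans (le_trans ?_ hK)
      refine Nat.mul_le_mul_left _ ?_
      omega
    have := hno E hE1 hE2 h5
    omega
  have h3 : 2 * s * Fintype.card Ω ≤ 2 * s * (Fintype.card Ω * d) := by
    refine Nat.mul_le_mul_left _ ?_
    exact Nat.le_mul_of_pos_right _ hd0
  calc I.card = _ := hsplit.symm
    _ ≤ (2 * R + 1) * (Fintype.card Ω * d) + 2 * s * (Fintype.card Ω * d) :=
        Nat.add_le_add h1 (h2.trans h3)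
    _ = _ := by ring

end Pool.Agent.TH468.BE
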