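import Pool.Agent.H268R3.BE.Growth

/-! Uniformly amenable classes of groups. -/

set_option autoImplicit false

open Finset
open scoped Pointwise

namespace Pool.Agent.TH468.BE

/-- The Følner function of the group `A` is at most `φ`: every set `G` of at most `k` elements has
a non-empty set `F` of at most `φ k t` elements with `|F G| ≤ (1 + 1 / t) |F|`. -/
def Folner (φ : ℕ → ℕ → ℕ) (A : Type) [Group A] : Prop :=
  ∀ k t : ℕ, ∀ G : Finset A, G.card ≤ k →
    ∃ F : Finset A, F.Nonempty ∧ F.card ≤ φ k t ∧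
      t * ((F : Set A) * (G : Set A)).ncard ≤ (t + 1) * F.card

theorem folner_iff {φ : ℕ → ℕ → ℕ} {A : Type} [Group A] [DecidableEq A] :
    Folner φ A ↔ ∀ k t : ℕ, ∀ G : Finset A, G.card ≤ k →
      ∃ F : Finset A, F.Nonempty ∧ F.card ≤ φ k t ∧ t * (F * G).card ≤ (t + 1) * F.card := by
  have h : ∀ F G : Finset A, ((F : Set A) * (G : Set A)).ncard = (F * G).card := by
    intro F G
    rw [← Finset.coe_mul, Set.ncard_coe_finset]
  unfold Folner
  simp only [h]

/-- The group `A` is obtained by at most `l` rounds of extensions from commutative groups and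
groups whose Følner function is at most `φ`. -/
inductive Tower (φ : ℕ → ℕ → ℕ) : ℕ → (A : Type) → [Group A] → Prop
  | comm (l : ℕ) (A : Type) [Group A] : (∀ a b : A, a * b = b * a) → Tower φ l A
  | folner (l : ℕ) (A : Type) [Group A] : Folner φ A → Tower φ l A
  | ext (l : ℕ) (A : Type) [Group A] (N : Subgroup A) [N.Normal] :
      Tower φ l N → Tower φ l (A ⧸ N) → Tower φ (l + 1) A

theorem Folner.mono {φ ψ : ℕ → ℕ → ℕ} (h : ∀ k t, φ k t ≤ ψ k t) {A : Type} [Group A]
    (hA : Folner φ A) : Folner ψ A := by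
  intro k t G hG
  obtain ⟨F, hF, hF2, hF3⟩ := hA k t G hG
  exact ⟨F, hF, hF2.trans (h k t), hF3⟩

theorem exists_comm : ∃ φ : ℕ → ℕ → ℕ, ∀ (A : Type) [Group A], (∀ a b : A, a * b = b * a) →
    Folner φ A := by
  classical
  choose J hJ using Pool.Agent.H268R3.BE.exists_slowGrowth
  refine ⟨fun k t => (k + t + 1) ^ J (k + t + 1), ?_⟩
  intro A _ hcomm
  rw [folner_iff]
  intro k t G hG
  let _ : CommGroup A := { ‹Group A› with mul_comm := hcomm }
  have hs := hJ (k + t + 1) A
  have hc : (insert 1 G).card ≤ k + t + 1 := (card_insert_le _ _).trans (by omega)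
  obtain ⟨j, hj, hgr⟩ := hs.step (mem_insert_self 1 G) hc
  refine ⟨(insert 1 G) ^ j, ?_, ?_, ?_⟩
  · exact Finset.Nonempty.pow ⟨1, mem_insert_self 1 G⟩
  · calc ((insert 1 G) ^ j).card ≤ (insert 1 G).card ^ j := card_pow_le
      _ ≤ (k + t + 1) ^ j := Nat.pow_le_pow_left hc _
      _ ≤ (k + t + 1) ^ J (k + t + 1) := Nat.pow_le_pow_right (by omega) hj.le
  · have h1 : ((insert 1 G) ^ j * G).card ≤ ((insert 1 G) ^ (j + 1)).card := by
      apply card_le_card
      rw [pow_succ]
      exact mul_subset_mul_left (subset_insert _ _)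
    have h3 : t * ((insert 1 G) ^ (j + 1)).card ≤ (t + 1) * ((insert 1 G) ^ j).card := by
      set u := ((insert 1 G) ^ (j + 1)).card with hu
      set v := ((insert 1 G) ^ j).card with hv
      by_contra hcon
      push Not at hcon
      -- u > v since otherwise immediate
      have h4 : v < u := by
        by_contra h5
        push Not at h5
        have : t * u ≤ t * v := Nat.mul_le_mul_left _ h5
        nlinarith
      nlinarith
    exact (Nat.mul_le_mul_left _ h1).trans h3

theorem Folner.ext {φ ψ : ℕ → ℕ → ℕ} {A : Type} [Group A] {N : Subgroup A} [N.Normal]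
    (hN : Folner φ N) (hQ : Folner ψ (A ⧸ N)) :
    Folner (fun k t => φ (ψ k (2 * t + 1) * k) (2 * t + 1) * ψ k (2 * t + 1)) A := by
  classical
  rw [folner_iff] at hN hQ ⊢
  intro k t G hG
  let π : A → A ⧸ N := fun a => (a : A ⧸ N)
  obtain ⟨Fq, hFq, hFq2, hFq3⟩ := hQ k (2 * t + 1) (G.image π) (card_image_le.trans hG)
  let σ : A ⧸ N → A := Quotient.out
  have hσ : ∀ q, π (σ q) = q := fun q => QuotientGroup.out_eq' q
  have hmem : ∀ q : A ⧸ N, ∀ g : A, σ q * g * (σ (q * π g))⁻¹ ∈ N := by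
    intro q g
    rw [← QuotientGroup.eq_one_iff]
    have h1 : ((σ q * g * (σ (q * π g))⁻¹ : A) : A ⧸ N) =
        π (σ q) * π g * (π (σ (q * π g)))⁻¹ := rfl
    rw [h1, hσ, hσ]
    group
  let Kf : Finset N := (Fq ×ˢ G).image (fun p => (⟨σ p.1 * p.2 * (σ (p.1 * π p.2))⁻¹,
    hmem p.1 p.2⟩ : N))
  have hKf : Kf.card ≤ ψ k (2 * t + 1) * k := by
    refine card_image_le.trans ?_
    rw [card_product]
    exact Nat.mul_le_mul hFq2 hG
  obtain ⟨Fn, hFn, hFn2, hFn3⟩ := hN _ (2 * t + 1) Kf hKf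
  let m : N × (A ⧸ N) → A := fun p => (p.1 : A) * σ p.2
  have hminj : Function.Injective m := by
    rintro ⟨n1, q1⟩ ⟨n2, q2⟩ h
    simp only [m] at h
    have hq : q1 = q2 := by
      have h2 := congrArg π h
      have h3 : ∀ (n : N) (q : A ⧸ N), π ((n : A) * σ q) = q := by
        intro n q
        have : π ((n : A) * σ q) = π (n : A) * π (σ q) := rfl
        rw [this, hσ]
        have h5 : π (n : A) = 1 := (QuotientGroup.eq_one_iff _).mpr n.2
        rw [h5, one_mul]
      rw [h3, h3] at h2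
      exact h2
    subst hq
    have := mul_right_cancel h
    rw [Subtype.ext this]
  refine ⟨(Fn ×ˢ Fq).image m, ?_, ?_, ?_⟩
  · exact (hFn.product hFq).image m
  · rw [card_image_of_injective _ hminj, card_product]
    exact Nat.mul_le_mul hFn2 hFq2
  · have hsub : (Fn ×ˢ Fq).image m * G ⊆ ((Fn * Kf) ×ˢ (Fq * G.image π)).image m := by
      intro x hx
      rw [mem_mul] at hx
      obtain ⟨y, hy, g, hg, rfl⟩ := hx
      rw [mem_image] at hy
      obtain ⟨⟨n, q⟩, hnq, rfl⟩ := hy
      rw [mem_product] at hnq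
      rw [mem_image]
      refine ⟨(n * ⟨σ q * g * (σ (q * π g))⁻¹, hmem q g⟩, q * π g), ?_, ?_⟩
      · rw [mem_product]
        refine ⟨mul_mem_mul hnq.1 ?_, mul_mem_mul hnq.2 (mem_image_of_mem _ hg)⟩
        exact mem_image.mpr ⟨(q, g), mem_product.mpr ⟨hnq.2, hg⟩, rfl⟩
      · simp only [m, Subgroup.coe_mul]
        group
    have h1 : ((Fn ×ˢ Fq).image m * G).card ≤ (Fn * Kf).card * (Fq * G.image π).card := by
      refine (card_le_card hsub).trans ?_
      refine card_image_le.trans ?_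
      rw [card_product]
    rw [card_image_of_injective _ hminj, card_product]
    set X := ((Fn ×ˢ Fq).image m * G).card with hX
    have hFn3' : (2 * t + 1) * (Fn * Kf).card ≤ (2 * t + 1 + 1) * Fn.card := hFn3
    have hFq3' : (2 * t + 1) * (Fq * G.image π).card ≤ (2 * t + 1 + 1) * Fq.card := hFq3
    set u := (Fn * Kf).card with hu
    set v := (Fq * G.image π).card with hv
    set f := Fn.card with hf
    set q := Fq.card with hq
    have e1 : (2 * t + 1) * (2 * t + 1) * X ≤ (2 * t + 2) * (2 * t + 2) * (f * q) := by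
      calc (2 * t + 1) * (2 * t + 1) * X ≤ (2 * t + 1) * (2 * t + 1) * (u * v) :=
            Nat.mul_le_mul_left _ h1
        _ = ((2 * t + 1) * u) * ((2 * t + 1) * v) := by ring
        _ ≤ ((2 * t + 1 + 1) * f) * ((2 * t + 1 + 1) * q) := Nat.mul_le_mul hFn3' hFq3'
        _ = _ := by ring
    have e2 : t * ((2 * t + 1) * (2 * t + 1) * X) ≤ t * ((2 * t + 2) * (2 * t + 2) * (f * q)) :=
      Nat.mul_le_mul_left _ e1
    have e3 : t * ((2 * t + 2) * (2 * t + 2) * (f * q)) ≤
        (t + 1) * ((2 * t + 1) * (2 * t + 1)) * (f * q) := by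
      rw [show t * ((2 * t + 2) * (2 * t + 2) * (f * q)) =
        (t * ((2 * t + 2) * (2 * t + 2))) * (f * q) by ring]
      refine Nat.mul_le_mul_right _ ?_
      nlinarith
    have e4 : (2 * t + 1) * (2 * t + 1) * (t * X) ≤
        (2 * t + 1) * (2 * t + 1) * ((t + 1) * (f * q)) := by
      calc (2 * t + 1) * (2 * t + 1) * (t * X) = t * ((2 * t + 1) * (2 * t + 1) * X) := by ring
        _ ≤ _ := e2
        _ ≤ _ := e3
        _ = _ := by ring
    exact Nat.le_of_mul_le_mul_left e4 (by positivity)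

theorem Tower.exists_folner (φ : ℕ → ℕ → ℕ) (l : ℕ) :
    ∃ ψ : ℕ → ℕ → ℕ, ∀ (A : Type) [Group A], Tower φ l A → Folner ψ A := by
  obtain ⟨φc, hφc⟩ := exists_comm
  induction l with
  | zero =>
    refine ⟨fun k t => max (φ k t) (φc k t), ?_⟩
    intro A _ h
    cases h with
    | comm _ _ h => exact (hφc A h).mono (fun k t => le_max_right _ _)
    | folner _ _ h => exact h.mono (fun k t => le_max_left _ _)
  | succ l ih =>
    obtain ⟨ψ, hψ⟩ := ih
    refine ⟨fun k t => max (max (φ k t) (φc k t))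
      (ψ (ψ k (2 * t + 1) * k) (2 * t + 1) * ψ k (2 * t + 1)), ?_⟩
    intro A _ h
    cases h with
    | comm _ _ h => exact (hφc A h).mono (fun k t => (le_max_right _ _).trans (le_max_left _ _))
    | folner _ _ h => exact h.mono (fun k t => (le_max_left _ _).trans (le_max_left _ _))
    | ext _ _ N h1 h2 =>
      exact (Folner.ext (hψ _ h1) (hψ _ h2)).mono (fun k t => le_max_right _ _)

end Pool.Agent.TH468.BE
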