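import Pool.Agent.H268R3.BE.Lift
import Pool.Agent.TH468.BE.Fol

/-! Lifting a dense spot of the quotient with the help of a large Følner set. -/

set_option autoImplicit false

open Finset
open scoped Pointwise

namespace Pool.Agent.TH468.BE

open Pool.Agent.H268R3.BE (tr card_tr tr_injective tr_tr tr_mono mem_tr)

/-- Enlarging a Følner set by disjoint translates. -/
theorem enlarge {A : Type} [Group A] [DecidableEq A] (F : Finset A) (hF : F.Nonempty) (M : ℕ)
    (hM : 1 ≤ M) (hA : M * (F.card * F.card) ≤ Nat.card A) (hpos : 0 < Nat.card A) :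
    ∃ T : Finset A, T.card = M ∧ (T * F).card = M * F.card := by
  have hfin : Finite A := (Nat.card_pos_iff.mp hpos).2
  induction M, hM using Nat.le_induction with
  | base => exact ⟨{1}, by simp, by simp⟩
  | succ M hM ih =>
    obtain ⟨T, hT, hTF⟩ := ih (le_trans (Nat.mul_le_mul_right _ (Nat.le_succ M)) hA)
    have hFpos : 0 < F.card := card_pos.mpr hF
    obtain ⟨a, ha⟩ : ∃ a, a ∉ T * F * F⁻¹ := by
      by_contra hcon
      push Not at hcon
      have : Fintype A := Fintype.ofFinite A
      have h1 : T * F * F⁻¹ = univ := eq_univ_iff_forall.mpr hcon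
      have h2 := card_mul_le (s := T * F) (t := F⁻¹)
      rw [h1, card_univ, hTF, card_inv, ← Nat.card_eq_fintype_card] at h2
      have h3 : 0 < F.card * F.card := Nat.mul_pos hFpos hFpos
      nlinarith
    have haT : a ∉ T := by
      intro h
      apply ha
      obtain ⟨f, hf⟩ := hF
      have : a = a * f * f⁻¹ := by group
      rw [this]
      exact mul_mem_mul (mul_mem_mul h hf) (inv_mem_inv hf)
    refine ⟨insert a T, by rw [card_insert_of_notMem haT, hT], ?_⟩
    have h4 : insert a T * F = ({a} * F) ∪ (T * F) := by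
      rw [insert_eq, union_mul]
    rw [h4, card_union_of_disjoint, hTF, card_singleton_mul]
    · ring
    · rw [Finset.disjoint_left]
      intro x hx hx'
      rw [mem_mul] at hx
      obtain ⟨a', ha', f, hf, rfl⟩ := hx
      rw [mem_singleton] at ha'
      subst ha'
      apply ha
      have : a' = a' * f * f⁻¹ := by group
      rw [this]
      exact mul_mem_mul hx' (inv_mem_inv hf)

variable {V Ω A : Type} [DecidableEq V] [Group A] [MulAction A V] [DecidableEq Ω] [DecidableEq A]

/-- If few large vertex orbits are touched by many edges at `b`, then few vertices span many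
edges. -/
theorem lift {N : ℕ} (H : Finset (Finset V)) (hH : ∀ (a : A), ∀ e ∈ H, tr a e ∈ H)
    (small : V → Prop) {L : ℕ} (hL : ∀ x, small x → ∀ T : Finset A,
      (T.image (fun a => a • x)).card ≤ L) (mk : V → Ω)
    (hmk : ∀ x y, ¬ small x → ¬ small y → mk x = mk y → ∃ a : A, a • x = y)
    {s : ℕ} (hs : 3 ≤ s) (b : V) (hfree : ∀ a : A, a • b = b → a = 1)
    (P : Finset (Finset V)) (hP : P ⊆ H) (f : Finset V → Finset V)
    (hf : ∀ p ∈ P, f p ⊆ p ∧ (f p).card = 3) (hb : ∀ p ∈ P, b ∈ p)
    (hcard : ∀ p ∈ P, p.card = s) {c t r : ℕ}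
    (hc : ∀ p ∈ P, ∃ Q : Finset V, Q.card ≤ c ∧ ∀ x ∈ p, (∃ a : A, a • b = x) → x ∈ Q)
    (ht : ∀ Θ : Finset Ω, (∀ ω ∈ Θ, ∃ x ∈ P.biUnion f, ¬ small x ∧ mk x = ω) → Θ.card ≤ t)
    (hct : c * t < P.card) (hctr : 2 * (c * t) ≤ r)
    (hPr : 3 * P.card + 1 ≤ r)
    (hgrow : ∀ G : Finset A, G.card ≤ r → ∃ F : Finset A, 6 * c * P.card * L < F.card ∧
      F.card ≤ N ∧ r * (F * G).card < (r + 1) * F.card) :
    ∃ E ⊆ H, E.Nonempty ∧ E.card ≤ N * P.card ∧ (E.biUnion id).card < (s - 2) * E.card := by
  classical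
  set U := P.biUnion f with hU
  -- base points of the orbits
  let β : Ω → V := fun ω => if h : ∃ x, ¬ small x ∧ mk x = ω then h.choose else b
  have hβ : ∀ x, ¬ small x → ¬ small (β (mk x)) ∧ mk (β (mk x)) = mk x := by
    intro x hx
    have h : ∃ y, ¬ small y ∧ mk y = mk x := ⟨x, hx, rfl⟩
    simp only [β, h, dif_pos]
    exact h.choose_spec
  have hg : ∀ x, ∃ a : A, ¬ small x → a • β (mk x) = x := by
    intro x
    by_cases hx : small x
    · exact ⟨1, fun h => absurd hx h⟩
    · obtain ⟨h1, h2⟩ := hβ x hx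
      obtain ⟨a, ha⟩ := hmk _ _ h1 hx h2
      exact ⟨a, fun _ => ha⟩
  choose g hg using hg
  set G : Finset A := insert 1 (U.image g) with hG
  have hUcard : U.card ≤ 3 * P.card := by
    calc U.card ≤ ∑ p ∈ P, (f p).card := card_biUnion_le
      _ = ∑ _p ∈ P, 3 := sum_congr rfl fun p hp => (hf p hp).2
      _ = 3 * P.card := by simp [mul_comm]
  have hGcard : G.card ≤ r := by
    have h1 : G.card ≤ (U.image g).card + 1 := card_insert_le _ _
    have h2 : (U.image g).card ≤ U.card := card_image_le
    omega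
  obtain ⟨F, hFL, hFN, hgr⟩ := hgrow G hGcard
  have hF0 : 0 < F.card := by omega
  obtain ⟨a1, h1F⟩ := card_pos.mp hF0
  -- the vertices
  let S := (F ×ˢ U).image (fun q => q.1 • q.2)
  have hS : S.card ≤ t * (F * G).card + 3 * P.card * L := by
    have hsub : S ⊆ (((U.filter (fun x => ¬ small x)).image mk) ×ˢ (F * G)).image
          (fun q => q.2 • β q.1) ∪
        (U.filter small).biUnion (fun x => F.image (fun a => a • x)) := by
      intro v hv
      simp only [S, mem_image, mem_product, Prod.exists] at hv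
      obtain ⟨a, x, ⟨ha, hx⟩, rfl⟩ := hv
      rw [mem_union]
      by_cases hsx : small x
      · right
        rw [mem_biUnion]
        exact ⟨x, mem_filter.mpr ⟨hx, hsx⟩, mem_image.mpr ⟨a, ha, rfl⟩⟩
      · left
        rw [mem_image]
        refine ⟨(mk x, a * g x), ?_, ?_⟩
        · rw [mem_product]
          refine ⟨mem_image_of_mem _ (mem_filter.mpr ⟨hx, hsx⟩), ?_⟩
          exact mul_mem_mul ha (mem_insert_of_mem (mem_image_of_mem _ hx))
        · simp only
          rw [mul_smul, hg x hsx]
    have ht' : ((U.filter (fun x => ¬ small x)).image mk).card ≤ t := by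
      apply ht
      intro ω hω
      rw [mem_image] at hω
      obtain ⟨x, hx, rfl⟩ := hω
      rw [mem_filter] at hx
      exact ⟨x, hx.1, hx.2, rfl⟩
    calc S.card ≤ _ := card_le_card hsub
      _ ≤ _ := card_union_le _ _
      _ ≤ t * (F * G).card + 3 * P.card * L := by
          refine Nat.add_le_add ?_ ?_
          · calc _ ≤ (((U.filter (fun x => ¬ small x)).image mk) ×ˢ (F * G)).card := card_image_le
              _ = ((U.filter (fun x => ¬ small x)).image mk).card * (F * G).card :=
                card_product _ _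
              _ ≤ _ := Nat.mul_le_mul_right _ ht'
          · calc _ ≤ (U.filter small).card * L :=
                card_biUnion_le_card_mul _ _ _ (fun x hx => hL x (mem_filter.mp hx).2 F)
              _ ≤ _ := Nat.mul_le_mul_right _ ((card_filter_le _ _).trans hUcard)
  -- the edges
  let E := (F ×ˢ P).image (fun q => tr q.1 q.2)
  have hEH : E ⊆ H := by
    intro e he
    simp only [E, mem_image, mem_product, Prod.exists] at he
    obtain ⟨a, p, ⟨_, hp⟩, rfl⟩ := he
    exact hH a p (hP hp)
  have hEP : F.card * P.card ≤ c * E.card := by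
    have h0 : (F ×ˢ P).card ≤ c * E.card := by
      refine card_le_mul_card_image (F ×ˢ P) c ?_
      intro e he
      rw [mem_image] at he
      obtain ⟨⟨a0, p0⟩, hq, rfl⟩ := he
      rw [mem_product] at hq
      obtain ⟨Q, hQ, hQ'⟩ := hc p0 hq.2
      have h1 : #{q ∈ F ×ˢ P | tr q.1 q.2 = tr a0 p0} ≤ (tr a0 Q).card := by
        refine card_le_card_of_injOn (fun q => q.1 • b) ?_ ?_
        · rintro ⟨a, p⟩ hap
          rw [mem_coe, mem_filter, mem_product] at hap
          obtain ⟨⟨_, hp⟩, heq⟩ := hap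
          simp only at heq ⊢
          have h2 : a • b ∈ tr a0 p0 := by
            rw [← heq]
            exact mem_tr.mpr ⟨b, hb p hp, rfl⟩
          obtain ⟨y, hy, hy'⟩ := mem_tr.mp h2
          rw [mem_coe, mem_tr]
          refine ⟨y, hQ' y hy ⟨a0⁻¹ * a, ?_⟩, hy'⟩
          rw [mul_smul, ← hy', inv_smul_smul]
        · rintro ⟨a, p⟩ hap ⟨a', p'⟩ hap' heq
          rw [mem_coe, mem_filter, mem_product] at hap hap'
          simp only at heq hap hap'
          have h3 : a'⁻¹ * a = 1 := by
            apply hfree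
            rw [mul_smul, heq, inv_smul_smul]
          have h4 : a = a' := by
            have := eq_of_inv_mul_eq_one h3
            exact this.symm
          subst h4
          have h5 := tr_injective a (hap.2.trans hap'.2.symm)
          rw [h5]
      exact h1.trans ((card_tr a0 Q).le.trans hQ)
    rwa [card_product] at h0
  have hPpos : 0 < P.card := by omega
  have hEne : E.Nonempty := by
    obtain ⟨p, hp⟩ := card_pos.mp hPpos
    exact ⟨tr a1 p, mem_image.mpr ⟨(a1, p), mem_product.mpr ⟨h1F, hp⟩, rfl⟩⟩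
  have hSE : S.card < E.card := by
    by_contra hcon
    push Not at hcon
    set g1 := (F * G).card with hg1
    set g0 := F.card with hg0
    have e1 : g0 * P.card ≤ (c * t) * g1 + c * (3 * P.card * L) := by
      calc g0 * P.card ≤ c * E.card := hEP
        _ ≤ c * (t * g1 + 3 * P.card * L) := Nat.mul_le_mul_left _ (hcon.trans hS)
        _ = _ := by ring
    have e2 : g0 * (c * t + 1) ≤ (c * t) * g1 + c * (3 * P.card * L) :=
      (Nat.mul_le_mul_left _ hct).trans e1
    have e2' : 2 * (c * (3 * P.card * L)) < g0 := by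
      calc 2 * (c * (3 * P.card * L)) = 6 * c * P.card * L := by ring
        _ < g0 := hFL
    generalize c * (3 * P.card * L) = w at e2 e2'
    generalize c * t = m at e2 hctr
    -- g0 (m+1) ≤ m g1 + w, 2 w < g0, r g1 < (r+1) g0, 2 m ≤ r
    have e3 : r * (g0 * (m + 1)) ≤ m * (r * g1) + r * w := by
      calc r * (g0 * (m + 1)) ≤ r * (m * g1 + w) := Nat.mul_le_mul_left _ e2
        _ = _ := by ring
    have e4 : m * (r * g1) ≤ m * ((r + 1) * g0) := Nat.mul_le_mul_left _ hgr.le
    have e5 : r * (g0 * (m + 1)) ≤ m * ((r + 1) * g0) + r * w := e3.trans (by omega)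
    -- r g0 ≤ m g0 + r w
    have e6 : r * g0 ≤ m * g0 + r * w := by nlinarith
    have e7 : 2 * (m * g0) ≤ r * g0 := by
      calc 2 * (m * g0) = (2 * m) * g0 := by ring
        _ ≤ _ := Nat.mul_le_mul_right _ hctr
    have e8 : r * (2 * w) < r * g0 := Nat.mul_lt_mul_of_pos_left e2' (by omega)
    have e9 : r * (2 * w) = 2 * (r * w) := by ring
    omega
  refine ⟨E, hEH, hEne, ?_, ?_⟩
  · calc E.card ≤ (F ×ˢ P).card := card_image_le
      _ = F.card * P.card := card_product _ _
      _ ≤ N * P.card := Nat.mul_le_mul_right _ hFN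
  · have hsub : E.biUnion id ⊆ S ∪ E.biUnion (fun e => e \ S) := by
      intro x hx
      rw [mem_biUnion] at hx
      obtain ⟨e, he, hx⟩ := hx
      rw [mem_union]
      by_cases h : x ∈ S
      · exact Or.inl h
      · exact Or.inr (mem_biUnion.mpr ⟨e, he, mem_sdiff.mpr ⟨hx, h⟩⟩)
    have hdiff : ∀ e ∈ E, (e \ S).card ≤ s - 3 := by
      intro e he
      simp only [E, mem_image, mem_product, Prod.exists] at he
      obtain ⟨a, p, ⟨ha, hp⟩, rfl⟩ := he
      have h1 : tr a (f p) ⊆ S := by
        intro x hx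
        obtain ⟨y, hy, rfl⟩ := mem_tr.mp hx
        simp only [S, mem_image, mem_product, Prod.exists]
        exact ⟨a, y, ⟨ha, mem_biUnion.mpr ⟨p, hp, hy⟩⟩, rfl⟩
      have h2 : tr a p \ S ⊆ tr a p \ tr a (f p) := sdiff_subset_sdiff (Subset.refl _) h1
      have h3 := card_le_card h2
      rw [card_sdiff_of_subset (tr_mono a (hf p hp).1), card_tr, card_tr, (hf p hp).2,
        hcard p hp] at h3
      exact h3
    have h1 : (E.biUnion (fun e => e \ S)).card ≤ E.card * (s - 3) := by
      calc _ ≤ ∑ e ∈ E, (e \ S).card := card_biUnion_le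
        _ ≤ ∑ _e ∈ E, (s - 3) := sum_le_sum hdiff
        _ = _ := by simp
    have h2 := (card_le_card hsub).trans (card_union_le _ _)
    obtain ⟨s', rfl⟩ : ∃ s', s = s' + 3 := ⟨s - 3, by omega⟩
    have e1 : s' + 3 - 3 = s' := by omega
    have e2 : s' + 3 - 2 = s' + 1 := by omega
    rw [e1] at h1
    rw [e2]
    have e3 : (s' + 1) * E.card = E.card * s' + E.card := by ring
    omega

end Pool.Agent.TH468.BE
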