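import Pool.Agent.TH468.BE.Degree

/-! From one dense spot to every large number of edges. -/

set_option autoImplicit false

open Finset

namespace Pool.Agent.TH468.BE

open Pool.Agent.H268R3.BE (tr card_tr tr_injective tr_tr tr_mono mem_tr)

variable {V A : Type} [DecidableEq V] [Group A] [MulAction A V]

theorem tr_one (e : Finset V) : tr (1 : A) e = e := by
  ext x
  rw [mem_tr]
  constructor
  · rintro ⟨y, hy, rfl⟩
    rwa [one_smul]
  · intro hx
    exact ⟨x, hx, one_smul _ _⟩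

open Classical in
/-- Few edges at `b` have a translate in a small set of edges. -/
theorem card_removed (H E : Finset (Finset V)) {s : ℕ} (hE : ∀ e ∈ E, e.card = s) (b : V)
    (hfree : ∀ a : A, a • b = b → a = 1) :
    #{e ∈ H | b ∈ e} ≤ #{e ∈ H.filter (fun e => ∀ a : A, tr a e ∉ E) | b ∈ e} + E.card * s := by
  have hsub : H.filter (fun e => b ∈ e) ⊆
      (H.filter (fun e => ∀ a : A, tr a e ∉ E)).filter (fun e => b ∈ e) ∪
      (H.filter (fun e => b ∈ e ∧ ∃ a : A, tr a e ∈ E)) := by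
    intro e he
    rw [mem_filter] at he
    rw [mem_union, mem_filter, mem_filter, mem_filter]
    by_cases h : ∃ a : A, tr a e ∈ E
    · right
      exact ⟨he.1, he.2, h⟩
    · left
      push Not at h
      exact ⟨⟨he.1, h⟩, he.2⟩
  have h1 : (H.filter (fun e => b ∈ e ∧ ∃ a : A, tr a e ∈ E)).card ≤ E.card * s := by
    have hex : ∀ e : Finset V, ∃ a : A, (b ∈ e ∧ ∃ a : A, tr a e ∈ E) → tr a e ∈ E := by
      intro e
      by_cases h : ∃ a : A, tr a e ∈ E
      · obtain ⟨a, ha⟩ := h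
        exact ⟨a, fun _ => ha⟩
      · exact ⟨1, fun h' => absurd h'.2 h⟩
    choose c hc using hex
    have h2 : (E.sigma (fun e => e)).card = E.card * s := by
      rw [card_sigma, sum_congr rfl hE, sum_const, smul_eq_mul]
    rw [← h2]
    refine card_le_card_of_injOn (fun e => (⟨tr (c e) e, c e • b⟩ : (_ : Finset V) × V)) ?_ ?_
    · intro e he
      rw [mem_coe, mem_filter] at he
      rw [mem_coe, mem_sigma]
      exact ⟨hc e he.2, mem_tr.mpr ⟨b, he.2.1, rfl⟩⟩
    · intro e he e' he' heq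
      simp only [Sigma.mk.injEq, heq_eq_eq] at heq
      have h3 : (c e')⁻¹ * c e = 1 := by
        apply hfree
        rw [mul_smul, heq.2, inv_smul_smul]
      have h4 : c e = c e' := (eq_of_inv_mul_eq_one h3).symm
      rw [h4] at heq
      exact tr_injective _ heq.1
  exact (card_le_card hsub).trans ((card_union_le _ _).trans (Nat.add_le_add_left h1 _))

theorem multi_aux (H : Finset (Finset V)) (hH : ∀ (a : A), ∀ e ∈ H, tr a e ∈ H)
    {s : ℕ} (hcard : ∀ e ∈ H, e.card = s) (b : V)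
    (hfree : ∀ a : A, a • b = b → a = 1) {K₀ D : ℕ}
    (hspot : ∀ H' ⊆ H, (∀ (a : A), ∀ e ∈ H', tr a e ∈ H') → D < #{e ∈ H' | b ∈ e} →
      ∃ E ⊆ H', E.Nonempty ∧ E.card ≤ K₀ ∧ (E.biUnion id).card < (s - 2) * E.card)
    {k : ℕ} (hdeg : D + k * s < #{e ∈ H | b ∈ e}) (m : ℕ) (hm : m + K₀ ≤ k) :
    ∃ E ⊆ H, m ≤ E.card ∧ E.card ≤ m + K₀ ∧
      K₀ * (E.biUnion id).card + E.card ≤ K₀ * ((s - 2) * E.card) := by
  classical
  induction m with
  | zero => exact ⟨∅, by simp, by simp, by simp, by simp⟩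
  | succ m ih =>
    obtain ⟨E, hE, hE1, hE2, hE3⟩ := ih (by omega)
    by_cases hlt : m + 1 ≤ E.card
    · exact ⟨E, hE, hlt, by omega, hE3⟩
    · have hEm : E.card = m := by omega
      set H' := H.filter (fun e => ∀ a : A, tr a e ∉ E) with hH'
      have h1 := card_removed (A := A) H E (fun e he => hcard e (hE he)) b hfree
      rw [hEm] at h1
      have h1' : #{e ∈ H | b ∈ e} ≤ #{e ∈ H' | b ∈ e} + m * s := by
        rw [hH']
        convert h1
      have h2 : m * s ≤ k * s := Nat.mul_le_mul_right _ (by omega)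
      obtain ⟨E₀, hE₀, hne, hc, hu⟩ := hspot H' (filter_subset _ _) (by
        intro a e he
        rw [hH', mem_filter] at he ⊢
        refine ⟨hH a e he.1, ?_⟩
        intro a'
        rw [tr_tr]
        exact he.2 _) (by omega)
      have hdis : Disjoint E E₀ := by
        rw [Finset.disjoint_left]
        intro e he he0
        have := hE₀ he0
        rw [hH', mem_filter] at this
        have h3 := this.2 1
        rw [tr_one] at h3
        exact h3 he
      have hcu : (E ∪ E₀).card = m + E₀.card := by rw [card_union_of_disjoint hdis, hEm]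
      have hpos : 0 < E₀.card := card_pos.mpr hne
      refine ⟨E ∪ E₀, union_subset hE (hE₀.trans (filter_subset _ _)), by omega, by omega, ?_⟩
      have h4 : ((E ∪ E₀).biUnion id).card ≤ (E.biUnion id).card + (E₀.biUnion id).card := by
        rw [union_biUnion]
        exact card_union_le _ _
      have h5 : K₀ * (E₀.biUnion id).card + E₀.card ≤ K₀ * ((s - 2) * E₀.card) := by
        calc K₀ * (E₀.biUnion id).card + E₀.card ≤ K₀ * (E₀.biUnion id).card + K₀ :=
              Nat.add_le_add_left hc _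
          _ = K₀ * ((E₀.biUnion id).card + 1) := by ring
          _ ≤ _ := Nat.mul_le_mul_left _ hu
      rw [card_union_of_disjoint hdis]
      calc K₀ * ((E ∪ E₀).biUnion id).card + (E.card + E₀.card)
          ≤ K₀ * ((E.biUnion id).card + (E₀.biUnion id).card) + (E.card + E₀.card) :=
            Nat.add_le_add_right (Nat.mul_le_mul_left _ h4) _
        _ = (K₀ * (E.biUnion id).card + E.card) + (K₀ * (E₀.biUnion id).card + E₀.card) := by ring
        _ ≤ K₀ * ((s - 2) * E.card) + K₀ * ((s - 2) * E₀.card) := Nat.add_le_add hE3 h5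
        _ = _ := by ring

theorem multi (H : Finset (Finset V)) (hH : ∀ (a : A), ∀ e ∈ H, tr a e ∈ H)
    {s : ℕ} (hs : 3 ≤ s) (hcard : ∀ e ∈ H, e.card = s) (b : V)
    (hfree : ∀ a : A, a • b = b → a = 1) {K₀ D : ℕ} (hK₀ : 1 ≤ K₀)
    (hspot : ∀ H' ⊆ H, (∀ (a : A), ∀ e ∈ H', tr a e ∈ H') → D < #{e ∈ H' | b ∈ e} →
      ∃ E ⊆ H', E.Nonempty ∧ E.card ≤ K₀ ∧ (E.biUnion id).card < (s - 2) * E.card)
    {k : ℕ} (hk : 4 * K₀ * K₀ + 2 * K₀ ≤ k) (hdeg : D + k * s < #{e ∈ H | b ∈ e}) :
    ∃ E ⊆ H, E.card = k ∧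
      (4 * K₀ * K₀ + 2 * K₀) * (E.biUnion id).card + k ≤
        (4 * K₀ * K₀ + 2 * K₀) * ((s - 2) * k) := by
  classical
  have hK₀k : K₀ ≤ k := by nlinarith
  obtain ⟨E, hE, hE1, hE2, hE3⟩ := multi_aux H hH hcard b hfree hspot hdeg (k - K₀) (by omega)
  have hkH : k ≤ H.card := by
    have h1 : #{e ∈ H | b ∈ e} ≤ H.card := card_filter_le _ _
    nlinarith
  obtain ⟨E', hEE', hE'H, hE'c⟩ := exists_subsuperset_card_eq hE (show E.card ≤ k by omega) hkH
  refine ⟨E', hE'H, hE'c, ?_⟩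
  -- the new edges
  have h1 : (E'.biUnion id).card ≤ (E.biUnion id).card + (k - E.card) * s := by
    have h2 : E'.biUnion id ⊆ E.biUnion id ∪ (E' \ E).biUnion id := by
      rw [← union_biUnion, union_sdiff_of_subset hEE']
    refine (card_le_card h2).trans ((card_union_le _ _).trans (Nat.add_le_add_left ?_ _))
    have h3 : (E' \ E).card = k - E.card := by rw [card_sdiff_of_subset hEE', hE'c]
    rw [← h3]
    exact card_biUnion_le_card_mul _ _ _ (fun e he => (hcard e (hE'H (mem_sdiff.mp he).1)).le)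
  obtain ⟨s', rfl⟩ : ∃ s', s = s' + 2 := ⟨s - 2, by omega⟩
  obtain ⟨t, ht⟩ : ∃ t, k = E.card + t := ⟨k - E.card, by omega⟩
  have ht' : k - E.card = t := by omega
  have htK : t ≤ K₀ := by omega
  rw [ht'] at h1
  simp only [Nat.add_sub_cancel] at hE3 ⊢
  set u := (E.biUnion id).card with hu
  set u' := (E'.biUnion id).card with hu'
  set c := E.card with hc
  have h5 : K₀ * u' + c ≤ K₀ * (s' * k) + 2 * K₀ * t := by
    calc K₀ * u' + c ≤ K₀ * (u + t * (s' + 2)) + c := Nat.add_le_add_right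
          (Nat.mul_le_mul_left _ h1) _
      _ = (K₀ * u + c) + K₀ * (t * (s' + 2)) := by ring
      _ ≤ K₀ * (s' * c) + K₀ * (t * (s' + 2)) := Nat.add_le_add_right hE3 _
      _ = K₀ * (s' * (c + t)) + 2 * K₀ * t := by ring
      _ = _ := by rw [← ht]
  -- 2 K₀ u' + k ≤ 2 K₀ (s' k)
  have h6 : 2 * K₀ * u' + k ≤ 2 * K₀ * (s' * k) := by
    have h7 : K₀ * u' + k ≤ K₀ * (s' * k) + (2 * K₀ + 1) * t := by
      calc K₀ * u' + k = (K₀ * u' + c) + t := by rw [ht]; ring
        _ ≤ (K₀ * (s' * k) + 2 * K₀ * t) + t := Nat.add_le_add_right h5 _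
        _ = _ := by ring
    have h8 : (2 * K₀ + 1) * t ≤ (2 * K₀ + 1) * K₀ := Nat.mul_le_mul_left _ htK
    nlinarith
  have h9 : u' ≤ s' * k := by
    have h10 : 2 * K₀ * u' ≤ 2 * K₀ * (s' * k) := by omega
    exact Nat.le_of_mul_le_mul_left h10 (by omega)
  calc (4 * K₀ * K₀ + 2 * K₀) * u' + k = (2 * K₀ * u' + k) + 4 * K₀ * K₀ * u' := by ring
    _ ≤ 2 * K₀ * (s' * k) + 4 * K₀ * K₀ * (s' * k) :=
        Nat.add_le_add h6 (Nat.mul_le_mul_left _ h9)
    _ = _ := by ring

end Pool.Agent.TH468.BE
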